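import Pool.Graph.R_pool_sql_team_seeded_63374d34.N309.PD.Euler

/-!
# Positive resolutions over the group algebra of a group acting on an ordered set
-/

set_option autoImplicit false
set_option linter.unusedSectionVars false

open scoped Matrix

namespace Pool.Agent.H84.LS

open Pool.Agent.N309.LO Pool.Agent.N309.PD

universe u z

section basic
variable {G : Type u} [Group G]

/-- the elements of the group algebra supported on `S` -/
def Sp (S : Set G) : Submodule ℂ (MonoidAlgebra ℂ G) where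
  carrier := {α | ∀ g, α.coeff g ≠ 0 → g ∈ S}
  zero_mem' := fun g hg => absurd rfl hg
  add_mem' := by
    intro a b ha hb g hg
    rw [MonoidAlgebra.coeff_add, Finsupp.add_apply] at hg
    by_cases h : a.coeff g = 0
    · exact hb g (fun h' => hg (by rw [h, h', add_zero]))
    · exact ha g h
  smul_mem' := by
    intro c a ha g hg
    rw [MonoidAlgebra.coeff_smul_apply, smul_eq_mul] at hg
    exact ha g (right_ne_zero_of_mul hg)

theorem mem_Sp {S : Set G} {α : MonoidAlgebra ℂ G} : α ∈ Sp S ↔ ∀ g, α.coeff g ≠ 0 → g ∈ S := Iff.rfl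

theorem Sp_mul {S T U : Set G} (h : ∀ s ∈ S, ∀ t ∈ T, s * t ∈ U) {α β : MonoidAlgebra ℂ G}
    (hα : α ∈ Sp S) (hβ : β ∈ Sp T) : α * β ∈ Sp U := by
  intro g hg
  rw [MonoidAlgebra.coeff_mul_apply_left] at hg
  obtain ⟨x, hx, hne⟩ := Finset.exists_ne_zero_of_sum_ne_zero hg
  have h1 := h x (hα x (left_ne_zero_of_mul hne)) _ (hβ _ (right_ne_zero_of_mul hne))
  rwa [mul_inv_cancel_left] at h1

theorem Sp_single {S : Set G} {g : G} (hg : g ∈ S) (c : ℂ) :
    (MonoidAlgebra.single g c : MonoidAlgebra ℂ G) ∈ Sp S := by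
  classical
  intro k hk
  rw [MonoidAlgebra.coeff_single, Finsupp.single_apply] at hk
  by_cases h : g = k
  · rwa [← h]
  · rw [if_neg h] at hk
    exact absurd rfl hk

/-- the part of an element supported on `S` -/
noncomputable def ld (S : Set G) : MonoidAlgebra ℂ G →ₗ[ℂ] MonoidAlgebra ℂ G := by
  classical
  exact
  { toFun := fun α => MonoidAlgebra.ofCoeff (α.coeff.filter (· ∈ S))
    map_add' := by
      intro a b
      rw [MonoidAlgebra.coeff_add, Finsupp.filter_add]
      rfl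
    map_smul' := by
      intro c a
      rw [MonoidAlgebra.coeff_smul, Finsupp.filter_smul]
      rfl }

theorem ld_coeff_mem {S : Set G} (α : MonoidAlgebra ℂ G) {g : G} (hg : g ∈ S) :
    (ld S α).coeff g = α.coeff g := by
  classical
  exact Finsupp.filter_apply_pos (· ∈ S) α.coeff hg

theorem ld_coeff_not {S : Set G} (α : MonoidAlgebra ℂ G) {g : G} (hg : g ∉ S) :
    (ld S α).coeff g = 0 := by
  classical
  exact Finsupp.filter_apply_neg (· ∈ S) α.coeff hg

theorem ld_mem (S : Set G) (α : MonoidAlgebra ℂ G) : ld S α ∈ Sp S := by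
  intro g hg
  by_contra h
  exact hg (ld_coeff_not α h)

theorem ld_of_mem {S : Set G} {α : MonoidAlgebra ℂ G} (h : α ∈ Sp S) : ld S α = α := by
  apply MonoidAlgebra.coeff_injective
  ext g
  by_cases hg : g ∈ S
  · exact ld_coeff_mem α hg
  · rw [ld_coeff_not α hg]
    by_contra h'
    exact hg (h g (Ne.symm h'))

theorem ld_of_disj {S T : Set G} (hST : ∀ g ∈ T, g ∉ S) {α : MonoidAlgebra ℂ G} (h : α ∈ Sp T) :
    ld S α = 0 := by
  apply MonoidAlgebra.coeff_injective
  ext g
  by_cases hg : g ∈ S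
  · rw [ld_coeff_mem α hg]
    by_contra h'
    exact hST g (h g h') hg
  · exact ld_coeff_not α hg

theorem Sp_mono {S T : Set G} (h : S ⊆ T) {α : MonoidAlgebra ℂ G} (hα : α ∈ Sp S) : α ∈ Sp T :=
  fun g hg => h (hα g hg)

end basic

section cone
variable {G : Type u} {X : Type z} [Group G] [MulAction G X] [LinearOrder X]

/-- the elements which do not lower the point -/
def Pc (G : Type u) [Group G] [MulAction G X] (p : X) : Set G := {g | p ≤ g • p}

/-- the stabiliser -/
def Sc (G : Type u) [Group G] [MulAction G X] (p : X) : Set G := {g | g • p = p}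

/-- the elements which raise the point -/
def Tc (G : Type u) [Group G] [MulAction G X] (p : X) : Set G := {g | p < g • p}

variable {p : X}

theorem Sc_sub : Sc G p ⊆ Pc G p := fun _ hg => le_of_eq (Eq.symm hg)

theorem Tc_sub : Tc G p ⊆ Pc G p := fun _ hg => le_of_lt hg

theorem one_Sc : (1 : G) ∈ Sc G p := one_smul G p

theorem PP (hX : OrdInv G X) : ∀ s ∈ Pc G p, ∀ t ∈ Pc G p, s * t ∈ Pc G p := by
  intro s hs t ht
  change p ≤ (s * t) • p
  rw [mul_smul]
  exact le_trans hs (hX s _ _ ht)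

theorem SS : ∀ s ∈ Sc G p, ∀ t ∈ Sc G p, s * t ∈ Sc G p := by
  intro s hs t ht
  change (s * t) • p = p
  rw [mul_smul, show t • p = p from ht]
  exact hs

theorem TP (hX : OrdInv G X) : ∀ s ∈ Tc G p, ∀ t ∈ Pc G p, s * t ∈ Tc G p := by
  intro s hs t ht
  change p < (s * t) • p
  rw [mul_smul]
  exact lt_of_lt_of_le hs (hX s _ _ ht)

theorem PT (hX : OrdInv G X) : ∀ s ∈ Pc G p, ∀ t ∈ Tc G p, s * t ∈ Tc G p := by
  intro s hs t ht
  change p < (s * t) • p
  rw [mul_smul]
  exact lt_of_le_of_lt hs (hX.lt s ht)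

theorem T_not_S : ∀ g ∈ Tc G p, g ∉ Sc G p := fun _ hg h => absurd (Eq.symm h) (ne_of_lt hg)

theorem sub_ld_mem {α : MonoidAlgebra ℂ G} (h : α ∈ Sp (Pc G p)) : α - ld (Sc G p) α ∈ Sp (Tc G p) := by
  intro g hg
  rw [MonoidAlgebra.coeff_sub, Finsupp.sub_apply] at hg
  by_cases hs : g ∈ Sc G p
  · rw [ld_coeff_mem α hs, sub_self] at hg
    exact absurd rfl hg
  · rw [ld_coeff_not α hs, sub_zero] at hg
    exact lt_of_le_of_ne (h g hg) (fun h' => hs h'.symm)

theorem ld_mul (hX : OrdInv G X) {α β : MonoidAlgebra ℂ G} (hα : α ∈ Sp (Pc G p))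
    (hβ : β ∈ Sp (Pc G p)) : ld (Sc G p) (α * β) = ld (Sc G p) α * ld (Sc G p) β := by
  have e : α * β = ld (Sc G p) α * ld (Sc G p) β + (ld (Sc G p) α * (β - ld (Sc G p) β)
      + (α - ld (Sc G p) α) * β) := by
    rw [mul_sub, sub_mul]
    abel
  have h1 : ld (Sc G p) α * ld (Sc G p) β ∈ Sp (Sc G p) := Sp_mul SS (ld_mem _ _) (ld_mem _ _)
  have h2 : ld (Sc G p) α * (β - ld (Sc G p) β) + (α - ld (Sc G p) α) * β ∈ Sp (Tc G p) :=
    Submodule.add_mem _
      (Sp_mul (PT hX) (Sp_mono Sc_sub (ld_mem _ _)) (sub_ld_mem hβ))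
      (Sp_mul (TP hX) (sub_ld_mem hα) hβ)
  rw [e, map_add, ld_of_mem h1, ld_of_disj T_not_S h2, add_zero]

theorem ld_one : ld (Sc G p) (1 : MonoidAlgebra ℂ G) = 1 :=
  ld_of_mem (by rw [MonoidAlgebra.one_def]; exact Sp_single one_Sc 1)

/-- vectors supported on the cone -/
def PV (p : X) {J : Type*} (x : J → MonoidAlgebra ℂ G) : Prop := ∀ j, x j ∈ Sp (Pc G p)

theorem PV_add {J : Type*} {x y : J → MonoidAlgebra ℂ G} (hx : PV p x) (hy : PV p y) :
    PV p (x + y) := fun j => Submodule.add_mem _ (hx j) (hy j)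

theorem PV_sub {J : Type*} {x y : J → MonoidAlgebra ℂ G} (hx : PV p x) (hy : PV p y) :
    PV p (x - y) := fun j => Submodule.sub_mem _ (hx j) (hy j)

theorem PV_vecMul (hX : OrdInv G X) {J L : Type*} [Fintype L] {y : L → MonoidAlgebra ℂ G}
    (hy : PV p y) {A : Matrix L J (MonoidAlgebra ℂ G)} (hA : ∀ l, PV p (A l)) : PV p (y ᵥ* A) := by
  intro j
  exact Submodule.sum_mem _ fun l _ => Sp_mul (PP hX) (hy l) (hA l j)

theorem gsm_coeff {J : Type*} (a : G) (x : J → MonoidAlgebra ℂ G) (j : J) (g : G) :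
    (gsm a x j).coeff g = (x j).coeff (a⁻¹ * g) := by
  change (MonoidAlgebra.single a 1 * x j).coeff g = _
  rw [MonoidAlgebra.coeff_single_mul_apply, one_mul]

theorem gsm_inv_gsm {J : Type*} [Fintype J] [DecidableEq J] (a : G) (x : J → MonoidAlgebra ℂ G) : gsm a⁻¹ (gsm a x) = x := by
  rw [← gsm_mul, inv_mul_cancel, gsm_one]

theorem gsm_gsm_inv {J : Type*} [Fintype J] [DecidableEq J] (a : G) (x : J → MonoidAlgebra ℂ G) : gsm a (gsm a⁻¹ x) = x := by
  rw [← gsm_mul, mul_inv_cancel, gsm_one]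

/-- translating a vector into the cone -/
theorem exists_translate (hX : OrdInv G X) {J : Type*} [Fintype J] (p : X)
    (x : J → MonoidAlgebra ℂ G) (hx : x ≠ 0) :
    ∃ b : G, (∃ j, (x j).coeff b ≠ 0) ∧ PV p (gsm b⁻¹ x) := by
  classical
  set F : Finset G := Finset.univ.biUnion fun j => (x j).coeff.support with hF
  have hmem : ∀ g, g ∈ F ↔ ∃ j, (x j).coeff g ≠ 0 := by
    intro g
    simp [hF]
  have hne : F.Nonempty := by
    by_contra h
    rw [Finset.not_nonempty_iff_eq_empty] at h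
    apply hx
    funext j
    apply MonoidAlgebra.coeff_injective
    ext g
    by_contra h'
    have : g ∈ F := (hmem g).2 ⟨j, h'⟩
    rw [h] at this
    exact absurd this (Finset.notMem_empty g)
  obtain ⟨b, hb, hmin⟩ := F.exists_min_image (fun g => g • p) hne
  refine ⟨b, (hmem b).1 hb, ?_⟩
  intro j g hg
  rw [gsm_coeff, inv_inv] at hg
  have h1 := hX b⁻¹ _ _ (hmin _ ((hmem _).2 ⟨j, hg⟩))
  rw [inv_smul_smul, mul_smul, inv_smul_smul] at h1
  exact h1

theorem gsm_zero {J : Type*} (a : G) : gsm a (0 : J → MonoidAlgebra ℂ G) = 0 := by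
  funext j
  exact mul_zero _

theorem exists_translate' (hX : OrdInv G X) {J : Type*} [Fintype J] (p : X)
    (x : J → MonoidAlgebra ℂ G) : ∃ b : G, PV p (gsm b x) := by
  by_cases hx : x = 0
  · refine ⟨1, ?_⟩
    rw [hx, gsm_zero]
    exact fun j => Submodule.zero_mem _
  · obtain ⟨b, _, hb⟩ := exists_translate hX p x hx
    exact ⟨b⁻¹, hb⟩

end cone

end Pool.Agent.H84.LS
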