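import Pool.Agent.H84.LS.L2

/-!
# Comparison of resolutions, and the vanishing of the reduced cohomology
-/

set_option autoImplicit false
set_option linter.unusedSectionVars false

open scoped Matrix

namespace Pool.Agent.H84.LS

open Pool.Agent.N309.LO Pool.Agent.N309.PD Pool.Agent.W649.ZL

universe u z

section gen
variable {G : Type u} [Group G] {r r' : ℕ → ℕ} {φ : (Fin (r 0) → MonoidAlgebra ℂ G) →ₗ[ℂ] ℂ}
  {D : Mats G r} {ψ : (Fin (r' 0) → MonoidAlgebra ℂ G) →ₗ[ℂ] ℂ} {E : Mats G r'} {χ : G →* ℂ} {m : ℕ}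

/-- chain maps up to the degree `m` -/
structure IsChain (m : ℕ) (φ : (Fin (r 0) → MonoidAlgebra ℂ G) →ₗ[ℂ] ℂ) (D : Mats G r)
    (ψ : (Fin (r' 0) → MonoidAlgebra ℂ G) →ₗ[ℂ] ℂ) (E : Mats G r')
    (f : ∀ i, Matrix (Fin (r i)) (Fin (r' i)) (MonoidAlgebra ℂ G)) : Prop where
  aug : ∀ x, ψ (x ᵥ* f 0) = φ x
  comm : ∀ i < m, D i * f i = f (i + 1) * E i

theorem exists_chain (hφ : ∀ (g : G) x, φ (gsm g x) = χ g * φ x)
    (hD : ∀ i < m, ∀ k, KK φ D i (D i k)) (hE : GRes m χ ψ E) :
    ∃ f : ∀ i, Matrix (Fin (r i)) (Fin (r' i)) (MonoidAlgebra ℂ G), IsChain m φ D ψ E f := by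
  classical
  have key : ∀ n ≤ m, ∃ f : ∀ i, Matrix (Fin (r i)) (Fin (r' i)) (MonoidAlgebra ℂ G),
      IsChain n φ D ψ E f := by
    intro n
    induction n with
    | zero =>
      intro _
      obtain ⟨w0, hw0⟩ : ∃ w, ψ w ≠ 0 := by
        by_contra hcon
        push Not at hcon
        exact hE.ne (LinearMap.ext hcon)
      set w := (ψ w0)⁻¹ • w0 with hw
      have hψw : ψ w = 1 := by rw [hw, map_smul, smul_eq_mul, inv_mul_cancel₀ hw0]
      refine ⟨fun i => match i with
        | 0 => Matrix.of fun k => φ (Pi.single k 1) • w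
        | (_ + 1) => 0, ?_, fun i hi => absurd hi (Nat.not_lt_zero i)⟩
      intro x
      have e : x ᵥ* (Matrix.of fun k => φ (Pi.single k 1) • w)
          = ∑ k, fun j => x k * (φ (Pi.single k 1) • w) j := by
        funext j
        rw [Finset.sum_apply]
        rfl
      change ψ (x ᵥ* (Matrix.of fun k => φ (Pi.single k 1) • w)) = φ x
      rw [e, map_sum, phi_eq χ hφ x]
      refine Finset.sum_congr rfl fun k _ => ?_
      rw [phi_lsm χ hE.aug, map_smul, hψw, smul_eq_mul, mul_one]
    | succ n ih =>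
      intro hn
      have hn' : n < m := hn
      obtain ⟨f, hf⟩ := ih hn'.le
      have hK : ∀ k, KK ψ E n ((D n * f n) k) := by
        intro k
        cases n with
        | zero =>
          change ψ ((D 0 * f 0) k) = 0
          have h1 : φ (D 0 k) = 0 := hD 0 hn' k
          rw [← h1, ← hf.aug]
          rfl
        | succ n =>
          change (D (n + 1) * f (n + 1)) k ᵥ* E n = 0
          have h1 : D (n + 1) k ᵥ* D n = 0 := hD (n + 1) hn' k
          have h2 : (D (n + 1) * f (n + 1)) k = D (n + 1) k ᵥ* f (n + 1) := rfl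
          rw [h2, Matrix.vecMul_vecMul, ← hf.comm n (Nat.lt_succ_self n), ← Matrix.vecMul_vecMul, h1,
            Matrix.zero_vecMul]
      obtain ⟨B, hB⟩ := exists_mat (fun x hx => (hE.ex n hn' x).1 hx) _ hK
      refine ⟨Function.update f (n + 1) B, ?_, ?_⟩
      · intro x
        rw [Function.update_of_ne (by omega)]
        exact hf.aug x
      · intro i hi
        rw [Function.update_of_ne (by omega)]
        by_cases h : i = n
        · subst h
          rw [Function.update_self]
          exact hB.symm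
        · rw [Function.update_of_ne (by omega)]
          exact hf.comm i (by omega)
  exact key m le_rfl

theorem exists_homotopy (hD : GRes (m + 1) χ φ D)
    (f : ∀ i, Matrix (Fin (r i)) (Fin (r i)) (MonoidAlgebra ℂ G)) (hf : IsChain m φ D φ D f) :
    ∃ h : ∀ i, Matrix (Fin (r i)) (Fin (r (i + 1))) (MonoidAlgebra ℂ G),
      f 0 - 1 = h 0 * D 0 ∧ ∀ i < m, f (i + 1) - 1 = D i * h i + h (i + 1) * D (i + 1) := by
  classical
  have key : ∀ n ≤ m, ∃ h : ∀ i, Matrix (Fin (r i)) (Fin (r (i + 1))) (MonoidAlgebra ℂ G),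
      f 0 - 1 = h 0 * D 0 ∧ ∀ i < n, f (i + 1) - 1 = D i * h i + h (i + 1) * D (i + 1) := by
    intro n
    induction n with
    | zero =>
      intro _
      have hK : ∀ k, KK φ D 0 ((f 0 - 1) k) := by
        intro k
        change φ (f 0 k - (1 : Matrix _ _ _) k) = 0
        have h1 : f 0 k = Pi.single k 1 ᵥ* f 0 := (Matrix.single_one_vecMul _ _).symm
        have h2 : (1 : Matrix (Fin (r 0)) (Fin (r 0)) (MonoidAlgebra ℂ G)) k = Pi.single k 1 := by
          have h3 := Matrix.single_one_vecMul k (1 : Matrix (Fin (r 0)) (Fin (r 0)) (MonoidAlgebra ℂ G))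
          rw [Matrix.vecMul_one] at h3
          exact h3.symm
        rw [map_sub, h1, hf.aug, h2, sub_self]
      obtain ⟨B, hB⟩ := exists_mat (fun x hx => (hD.ex 0 (Nat.succ_pos m) x).1 hx) _ hK
      exact ⟨Function.update (fun _ => 0) 0 B, by rw [Function.update_self, hB],
        fun i hi => absurd hi (Nat.not_lt_zero i)⟩
    | succ n ih =>
      intro hn
      have hn' : n < m := hn
      obtain ⟨h, h0, hh⟩ := ih hn'.le
      have hK : ∀ k, KK φ D (n + 1) ((f (n + 1) - 1 - D n * h n : Matrix (Fin (r (n + 1)))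
          (Fin (r (n + 1))) (MonoidAlgebra ℂ G)) k) := by
        intro k
        change (f (n + 1) - 1 - D n * h n : Matrix (Fin (r (n + 1))) (Fin (r (n + 1)))
          (MonoidAlgebra ℂ G)) k ᵥ* D n = 0
        have h1 : (f (n + 1) - 1 - D n * h n) * D n = 0 := by
          rw [Matrix.sub_mul, Matrix.sub_mul, Matrix.one_mul, ← hf.comm n hn']
          have h2 : D n * f n - D n - D n * h n * D n = D n * (f n - 1 - h n * D n) := by
            rw [Matrix.mul_sub, Matrix.mul_sub, Matrix.mul_one, Matrix.mul_assoc]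
          rw [h2]
          cases n with
          | zero => rw [h0, sub_self, Matrix.mul_zero]
          | succ n =>
            rw [hh n (Nat.lt_succ_self n), add_sub_cancel_right, ← Matrix.mul_assoc,
              hD.comp (by omega), Matrix.zero_mul]
        exact congrFun h1 k
      obtain ⟨B, hB⟩ := exists_mat (fun x hx => (hD.ex (n + 1) (by omega) x).1 hx) _ hK
      refine ⟨Function.update h (n + 1) B, ?_, ?_⟩
      · rw [Function.update_of_ne (by omega)]
        exact h0
      · intro i hi
        rw [Function.update_of_ne (by omega)]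
        by_cases hin : i = n
        · subst hin
          rw [Function.update_self, hB, add_sub_cancel]
        · rw [Function.update_of_ne (by omega)]
          exact hh i (by omega)
  exact key m le_rfl

theorem opM_rows_zero {i : ℕ} (z : EE G (Fin (r i))) (hz : opM (D i) z = 0) {L : Type} [Fintype L]
    [DecidableEq L] (A : Matrix L (Fin (r i)) (MonoidAlgebra ℂ G))
    (hA : ∀ l, ∃ y, y ᵥ* D i = A l) : opM A z = 0 := by
  rw [opM_eq_zero]
  intro l
  obtain ⟨y, hy⟩ := hA l
  rw [← hy, ← pr_opM, hz, pr_zero_right]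

end gen

section cone
variable {G : Type u} {X : Type z} [Group G] [MulAction G X] [LinearOrder X] {p : X}
  {r r' : ℕ → ℕ} {φ : (Fin (r 0) → MonoidAlgebra ℂ G) →ₗ[ℂ] ℂ}
  {D : Mats G r} {ψ : (Fin (r' 0) → MonoidAlgebra ℂ G) →ₗ[ℂ] ℂ} {E : Mats G r'} {χ : G →* ℂ} {m : ℕ}

/-- **Vanishing**: the reduced cohomology of a resolution vanishes up to the degree `m`. -/
theorem bt_vanish (hX : OrdInv G X) (hE : PRes p m χ ψ E) (a : G) (ha : a ∈ Tc G p)
    (hD : GRes (m + 1) χ φ D) : ∀ i ≤ m, bt D i = 0 := by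
  classical
  have hEg := hE.gres hX
  obtain ⟨f, hf⟩ := exists_chain (m := m) hD.aug (fun i hi k => hD.row (by omega) k) hEg
  obtain ⟨g, hg⟩ := exists_chain (m := m) (φ := ψ) (D := E) (ψ := φ) (E := D) hE.aug
    (fun i hi k => hEg.row hi k) ⟨hD.ne, hD.aug, fun i hi => hD.ex i (by omega)⟩
  have hfg : IsChain m φ D φ D (fun i => f i * g i) := by
    refine ⟨?_, ?_⟩
    · intro x
      rw [← Matrix.vecMul_vecMul, hg.aug, hf.aug]
    · intro i hi
      rw [← Matrix.mul_assoc, hf.comm i hi, Matrix.mul_assoc, hg.comm i hi, Matrix.mul_assoc]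
  obtain ⟨h, h0, hh⟩ := exists_homotopy hD _ hfg
  intro i hi
  obtain ⟨W, hW⟩ := exists_LW hX hE a ha i hi
  -- the pull back of a cocycle
  have hpull : ∀ z, opM (D i) z = 0 → opM W (opM (g i) z) = 0 := by
    intro z hz
    rw [← opM_mul]
    apply opM_rows_zero z hz
    intro l
    rw [← hD.ex i (by omega)]
    have h1 := hW.ker l
    cases i with
    | zero =>
      change φ ((W * g 0) l) = 0
      have h2 : ψ (W l) = 0 := h1
      have h3 : (W * g 0) l = W l ᵥ* g 0 := rfl
      rw [h3, hg.aug, h2]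
    | succ i =>
      change (W * g (i + 1)) l ᵥ* D i = 0
      have h2 : W l ᵥ* E i = 0 := h1
      have h3 : (W * g (i + 1)) l = W l ᵥ* g (i + 1) := rfl
      rw [h3, Matrix.vecMul_vecMul, ← hg.comm i (by omega), ← Matrix.vecMul_vecMul, h2,
        Matrix.zero_vecMul]
  cases i with
  | zero =>
    apply bt_zero
    intro z hz
    have h1 := zero_of_LW hX hW _ (hpull z hz)
    have h2 : opM (f 0 * g 0) z = 0 := by rw [opM_mul, h1, map_zero]
    have h3 := congrArg (fun M => opM M z) h0
    change opM (f 0 * g 0 - 1) z = opM (h 0 * D 0) z at h3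
    rw [opM_sub, opM_one, h2, opM_mul, hz, map_zero, zero_sub, neg_eq_zero] at h3
    exact h3
  | succ i =>
    have hbot : harm (opM (D (i + 1))) (opM (D i)) = ⊥ := by
      apply harm_bot_of_closure
      intro z hz
      have h1 := closure_of_LW hX hE hi hW _ (hpull z hz)
      set R := (LinearMap.range (opM (D i) : EE G (Fin (r i)) →ₗ[ℂ] EE G (Fin (r (i + 1))))).topologicalClosure
        with hR
      have h2 : opM (f (i + 1)) (opM (g (i + 1)) z) ∈ R := by
        have hle : (LinearMap.range (opM (E i) :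
            EE G (Fin (r' i)) →ₗ[ℂ] EE G (Fin (r' (i + 1))))).topologicalClosure
            ≤ R.comap (opM (f (i + 1)) : EE G (Fin (r' (i + 1))) →ₗ[ℂ] EE G (Fin (r (i + 1)))) := by
          apply Submodule.topologicalClosure_minimal
          · rintro _ ⟨F, rfl⟩
            change opM (f (i + 1)) (opM (E i) F) ∈ R
            rw [← opM_mul, ← hf.comm i hi, opM_mul]
            exact Submodule.le_topologicalClosure _ ⟨_, rfl⟩
          · exact (Submodule.isClosed_topologicalClosure _).preimage (opM (f (i + 1))).continuous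
        exact hle h1
      have h3 := congrArg (fun M => opM M z) (hh i hi)
      change opM (f (i + 1) * g (i + 1) - 1) z = opM (D i * h i + h (i + 1) * D (i + 1)) z at h3
      rw [opM_sub, opM_one, opM_add, opM_mul, opM_mul, opM_mul, hz, map_zero, add_zero] at h3
      have h4 : z = opM (f (i + 1)) (opM (g (i + 1)) z) - opM (D i) (opM (h i) z) := by
        rw [← h3]
        abel
      rw [h4]
      exact Submodule.sub_mem _ h2 (Submodule.le_topologicalClosure _ ⟨_, rfl⟩)
    change vd (harm (opM (D (i + 1))) (opM (D i))) = 0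
    rw [hbot, vd_bot]

end cone

end Pool.Agent.H84.LS
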