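import Pool.Agent.H84.LS.Twist

/-!
# The dual complex and the Euler characteristic
-/

set_option autoImplicit false
set_option linter.unusedSectionVars false

open scoped Matrix

namespace Pool.Agent.H84.LS

open Pool.Agent.N309.LO Pool.Agent.N309.PD Pool.Agent.W649.ZL

universe u z

section gen
variable {G : Type u} [Group G] {r : ℕ → ℕ}

/-- change of the columns -/
def castM {a b c : ℕ} (h : c = b) (M : Matrix (Fin (r a)) (Fin (r b)) (MonoidAlgebra ℂ G)) :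
    Matrix (Fin (r a)) (Fin (r c)) (MonoidAlgebra ℂ G) :=
  M.submatrix id (Fin.cast (congrArg r h))

theorem castM_rfl {a b : ℕ} (M : Matrix (Fin (r a)) (Fin (r b)) (MonoidAlgebra ℂ G)) :
    castM rfl M = M := rfl

/-- the dual complex -/
noncomputable def dualC (D : Mats G r) (N : ℕ) : Mats G (fun j => r (N - j)) := fun j =>
  if h : N - j = N - (j + 1) + 1 then castM h (adjM (D (N - (j + 1)))) else 0

theorem dual_harm (D : Mats G r) (a b c : ℕ) (hb : b = a + 1) (hc : c = b + 1) :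
    vd (harm (opM (castM (r := r) hb (adjM (D a)))) (opM (castM (r := r) hc (adjM (D b)))))
      = bt D b := by
  subst hb
  subst hc
  change vd (harm (opM (adjM (D a))) (opM (adjM (D (a + 1))))) = vd (harm (opM (D (a + 1))) (opM (D a)))
  rw [harm_dual (opM (D (a + 1))) (opM (D a)), opM_adj, opM_adj]

theorem dual_ex (D : Mats G r) (a b c : ℕ) (hb : b = a + 1) (hc : c = b + 1)
    (comp : D (a + 1) * D a = 0)
    (hex : ∀ x : Fin (r (a + 1)) → MonoidAlgebra ℂ G, D (a + 1) *ᵥ x = 0 → ∃ y, D a *ᵥ y = x)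
    (x : Fin (r b) → MonoidAlgebra ℂ G) :
    x ᵥ* castM (r := r) hc (adjM (D b)) = 0 ↔ ∃ y, y ᵥ* castM (r := r) hb (adjM (D a)) = x := by
  subst hb
  subst hc
  constructor
  · intro hx
    exact dual_exact (D (a + 1)) (D a) hex x hx
  · rintro ⟨y, rfl⟩
    change (y ᵥ* adjM (D a)) ᵥ* adjM (D (a + 1)) = 0
    rw [Matrix.vecMul_vecMul, adj_mul_zero _ _ comp, Matrix.vecMul_zero]

end gen

section cone
variable {G : Type u} {X : Type z} [Group G] [MulAction G X] [LinearOrder X] {p : X}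
  {r r' : ℕ → ℕ} {ψ : (Fin (r' 0) → MonoidAlgebra ℂ G) →ₗ[ℂ] ℂ} {E : Mats G r'} {m : ℕ}

/-- the upper half of the Betti numbers -/
theorem bt_upper (hX : OrdInv G X) (hE : PRes p m 1 ψ E) (a : G) (ha : a ∈ Tc G p)
    (D : Mats G r) (comp : ∀ i, D (i + 1) * D i = 0) (N : ℕ) (hm : m ≤ N)
    (hex : ∀ i, i + 1 ≤ N → N < i + 1 + m → ∀ x : Fin (r (i + 1)) → MonoidAlgebra ℂ G,
      D (i + 1) *ᵥ x = 0 → ∃ y, D i *ᵥ y = x)
    (φ : (Fin (r (N + 1)) → MonoidAlgebra ℂ G) →ₗ[ℂ] ℂ) (hφ0 : φ ≠ 0)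
    (hφ : ∀ x, (∃ y, D N *ᵥ y = x) ↔ φ x = 0) :
    ∀ i, i ≤ N + 1 → N + 1 ≤ i + m → bt D i = 0 := by
  classical
  have h1 := dual_aug (D N) φ hφ
  have h2 := dualF_ne hφ0
  have h3 := aug_of h2 _ h1
  obtain ⟨χ, hχ⟩ := h3.exists_char
  have hD0 : dualC D (N + 1) 0 = adjM (D N) := by
    unfold dualC
    exact dif_pos rfl
  have hD : GRes (r := fun j => r (N + 1 - j)) (m + 1) χ (dualF φ) (dualC D (N + 1)) := by
    refine ⟨h2, hχ, ?_⟩
    intro j hj x
    cases j with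
    | zero =>
      change dualF φ x = 0 ↔ ∃ y, y ᵥ* dualC D (N + 1) 0 = x
      rw [hD0]
      exact (h1 x).symm
    | succ j =>
      change x ᵥ* dualC D (N + 1) j = 0 ↔ ∃ y, y ᵥ* dualC D (N + 1) (j + 1) = x
      have e1 : N + 1 - j = N + 1 - (j + 1) + 1 := by omega
      have e2 : N + 1 - (j + 1) = N + 1 - (j + 1 + 1) + 1 := by omega
      have e3 : dualC D (N + 1) j = castM e1 (adjM (D (N + 1 - (j + 1)))) := dif_pos e1
      have e4 : dualC D (N + 1) (j + 1) = castM e2 (adjM (D (N + 1 - (j + 1 + 1)))) := dif_pos e2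
      rw [e3, e4]
      exact dual_ex D (N + 1 - (j + 1 + 1)) (N + 1 - (j + 1)) (N + 1 - j) e2 e1 (comp _)
        (hex _ (by omega) (by omega)) x
  have hv := bt_vanish hX (hE.twist χ) a ha hD
  intro i hi1 hi2
  by_cases hi : i = N + 1
  · subst hi
    apply bt_top D N
    intro F hF
    have h4 := hv 0 (Nat.zero_le m)
    have h5 : vd (LinearMap.ker (opM (dualC D (N + 1) 0) : EE G (Fin (r (N + 1 - 0))) →ₗ[ℂ]
      EE G (Fin (r (N + 1 - (0 + 1)))))) = 0 := h4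
    have h6 := eq_bot_of_vd_eq_zero _ (inv_ker (opM (dualC D (N + 1) 0)) (opM_eqv _)) h5.le
    have h7 : F ∈ LinearMap.ker (opM (dualC D (N + 1) 0) : EE G (Fin (r (N + 1 - 0))) →ₗ[ℂ]
      EE G (Fin (r (N + 1 - (0 + 1))))) := by
      change opM (dualC D (N + 1) 0) F = 0
      rw [hD0]
      exact hF
    rw [h6] at h7
    exact h7
  · obtain ⟨j, hj⟩ : ∃ j, j + 1 + i = N + 1 := ⟨N - i, by omega⟩
    have h4 := hv (j + 1) (by omega)
    have e1 : N + 1 - j = N + 1 - (j + 1) + 1 := by omega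
    have e2 : N + 1 - (j + 1) = N + 1 - (j + 1 + 1) + 1 := by omega
    have e3 : dualC D (N + 1) j = castM e1 (adjM (D (N + 1 - (j + 1)))) := dif_pos e1
    have e4 : dualC D (N + 1) (j + 1) = castM e2 (adjM (D (N + 1 - (j + 1 + 1)))) := dif_pos e2
    have h5 : vd (harm (opM (dualC D (N + 1) (j + 1))) (opM (dualC D (N + 1) j))) = 0 := h4
    rw [e3, e4] at h5
    have h6 := dual_harm D (N + 1 - (j + 1 + 1)) (N + 1 - (j + 1)) (N + 1 - j) e2 e1
    rw [h5] at h6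
    have e5 : N + 1 - (j + 1) = i := by omega
    rw [e5] at h6
    exact h6.symm

/-- **The sign of the Euler characteristic.** -/
theorem euler_sign (hX : OrdInv G X) (hE : PRes p m 1 ψ E) (a : G) (ha : a ∈ Tc G p)
    (D : Mats G r) (comp : ∀ i, D (i + 1) * D i = 0) (hlen : r (2 * m + 3) = 0)
    (φ' : (Fin (r 0) → MonoidAlgebra ℂ G) →ₗ[ℂ] ℂ) (χ : G →* ℂ)
    (hD : GRes (m + 1) χ φ' D)
    (hE' : PRes p m χ (twF χ ψ) (fun i => (E i).map (tw (cinv χ))))
    (hex : ∀ i, m + 1 ≤ i → i + 1 < 2 * m + 2 → ∀ x : Fin (r (i + 1)) → MonoidAlgebra ℂ G,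
      D (i + 1) *ᵥ x = 0 → ∃ y, D i *ᵥ y = x)
    (φ : (Fin (r (2 * m + 1 + 1)) → MonoidAlgebra ℂ G) →ₗ[ℂ] ℂ) (hφ0 : φ ≠ 0)
    (hφ : ∀ x, (∃ y, D (2 * m + 1) *ᵥ y = x) ↔ φ x = 0) :
    0 ≤ (-1 : ℝ) ^ (m + 1) * ∑ i ∈ Finset.range (2 * m + 2 + 1), (-1 : ℝ) ^ i * (r i : ℝ) := by
  have hlow := bt_vanish hX hE' a ha hD
  have hup := bt_upper hX hE a ha D comp (2 * m + 1) (by omega)
    (fun i h1 h2 => hex i (by omega) (by omega)) φ hφ0 hφ
  have he := euler D comp (2 * m + 2) hlen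
  rw [← he, Finset.sum_eq_single (m + 1)]
  · rw [← mul_assoc, ← pow_add, ← two_mul, pow_mul]
    norm_num
    exact bt_nonneg D (m + 1)
  · intro i hi hne
    rw [Finset.mem_range] at hi
    by_cases h : i ≤ m
    · rw [hlow i h, mul_zero]
    · rw [hup i (by omega) (by omega), mul_zero]
  · intro h
    exact absurd (Finset.mem_range.2 (by omega)) h

end cone

end Pool.Agent.H84.LS
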