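import Pool.Agent.H84.LS.Res

/-!
# The reduced `ℓ²`-cohomology of positive resolutions
-/

set_option autoImplicit false
set_option linter.unusedSectionVars false

open scoped InnerProductSpace InnerProduct ENNReal
open scoped Matrix

namespace Pool.Agent.H84.LS

open Pool.Agent.N309.LO Pool.Agent.N309.PD Pool.Agent.W649.ZL

universe u v w y z

section gen
variable {G : Type u} [Group G] {I : Type v} [Fintype I] [DecidableEq I] {J : Type w} [Fintype J]
  [DecidableEq J] {K : Type y} [Fintype K] [DecidableEq K]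

theorem opM_mul (A : Matrix I J (MonoidAlgebra ℂ G)) (B : Matrix J K (MonoidAlgebra ℂ G))
    (F : EE G K) : opM (A * B) F = opM A (opM B F) := by
  apply ext_cmp
  intro i
  rw [cmp_opM, cmp_opM, pr_opM]
  rfl

theorem opM_one (F : EE G I) : opM (1 : Matrix I I (MonoidAlgebra ℂ G)) F = F := by
  apply ext_cmp
  intro i
  rw [cmp_opM]
  have e : (1 : Matrix I I (MonoidAlgebra ℂ G)) i = Pi.single i 1 := by
    funext j
    rw [Matrix.one_apply]
    by_cases h : i = j
    · subst h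
      rw [if_pos rfl, Pi.single_eq_same]
    · rw [if_neg h, Pi.single_eq_of_ne (Ne.symm h)]
  rw [e, pr_single, map_one]
  rfl

theorem opM_add (A B : Matrix I J (MonoidAlgebra ℂ G)) (F : EE G J) :
    opM (A + B) F = opM A F + opM B F := by
  apply ext_cmp
  intro i
  rw [cmp_opM, map_add, cmp_opM, cmp_opM, ← pr_add_left]
  rfl

theorem opM_sub (A B : Matrix I J (MonoidAlgebra ℂ G)) (F : EE G J) :
    opM (A - B) F = opM A F - opM B F := by
  have h := opM_add (A - B) B F
  rw [sub_add_cancel] at h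
  rw [h, add_sub_cancel_right]

theorem mem_closure_of_harm {A : EE G J →L[ℂ] EE G I} {B : EE G K →L[ℂ] EE G J} (hA : Eqv A) (hB : Eqv B)
    (h : vd (harm A B) ≤ 0) (hAB : ∀ F, A (B F) = 0) (F : EE G J) (hF : A F = 0) :
    F ∈ (LinearMap.range (B : EE G K →ₗ[ℂ] EE G J)).topologicalClosure := by
  have h0 := eq_bot_of_vd_eq_zero _ (harm_inv A B hA hB) h
  set R := (LinearMap.range (B : EE G K →ₗ[ℂ] EE G J)).topologicalClosure with hR
  have hRc : CompleteSpace R := (Submodule.isClosed_topologicalClosure _).completeSpace_coe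
  have hle : R ≤ LinearMap.ker (A : EE G J →ₗ[ℂ] EE G I) := by
    apply Submodule.topologicalClosure_minimal _ _ (ContinuousLinearMap.isClosed_ker A)
    rintro _ ⟨F, rfl⟩
    exact hAB F
  have h1 : F - R.starProjection F ∈ harm A B := by
    refine ⟨?_, ?_⟩
    · exact Submodule.sub_mem _ hF (hle (Submodule.starProjection_apply_mem _ _))
    · have h2 := Submodule.sub_starProjection_mem_orthogonal (K := R) F
      have hRo : Rᗮ = (LinearMap.range (B : EE G K →ₗ[ℂ] EE G J))ᗮ := Submodule.orthogonal_closure _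
      rw [hRo] at h2
      exact h2
  rw [h0, Submodule.mem_bot, sub_eq_zero] at h1
  rw [h1]
  exact Submodule.starProjection_apply_mem _ _

theorem harm_bot_of_closure {A : EE G J →L[ℂ] EE G I} {B : EE G K →L[ℂ] EE G J}
    (h : ∀ F, A F = 0 → F ∈ (LinearMap.range (B : EE G K →ₗ[ℂ] EE G J)).topologicalClosure) :
    harm A B = ⊥ := by
  rw [eq_bot_iff]
  rintro F ⟨hF1, hF2⟩
  rw [← Submodule.orthogonal_closure] at hF2
  have h1 := h F hF1
  rw [Submodule.mem_bot, ← inner_self_eq_zero (𝕜 := ℂ)]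
  exact (Submodule.mem_orthogonal _ _).1 hF2 F h1

end gen

section cone
variable {G : Type u} {X : Type z} [Group G] [MulAction G X] [LinearOrder X]
variable {r : ℕ → ℕ} {φ : (Fin (r 0) → MonoidAlgebra ℂ G) →ₗ[ℂ] ℂ} {E : Mats G r} {p : X} {m : ℕ}
  {χ : G →* ℂ}

theorem pos_le' (hX : OrdInv G X) {J : Type v} [Fintype J] [DecidableEq J] {L : Type w} [Fintype L]
    [DecidableEq L] (D : Matrix L J (MonoidAlgebra ℂ G)) (hD : ∀ l, PV p (D l)) :
    vd (LinearMap.ker (opM D : EE G J →ₗ[ℂ] EE G L))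
      ≤ vd (LinearMap.ker (opM (D.map (ld (Sc G p))) : EE G J →ₗ[ℂ] EE G L)) := by
  apply level_le hX (fun _ => p) (fun _ => p) _ _ (opM_eqv _) (opM_eqv _)
  · intro j t i hne
    rw [opM_dl, inv_one, mul_one] at hne
    exact hD i j t hne
  · intro j t i he
    rw [opM_dl, opM_dl, inv_one, mul_one]
    exact ld_coeff_mem _ he.symm
  · intro j t i he
    rw [opM_dl, inv_one, mul_one]
    exact ld_coeff_not _ fun h => he (Eq.symm h)

theorem zero_of_LW (hX : OrdInv G X) {W : Matrix (Fin (r 0)) (Fin (r 0)) (MonoidAlgebra ℂ G)}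
    (hW : LW p m φ E 0 W) (F : EE G (Fin (r 0))) (hF : opM W F = 0) : F = 0 := by
  have h1 := pos_le' hX W hW.pos
  have h2 : W.map (ld (Sc G p)) = 1 := hW.fac
  have h3 : LinearMap.ker (opM (W.map (ld (Sc G p))) :
      EE G (Fin (r 0)) →ₗ[ℂ] EE G (Fin (r 0))) = ⊥ := by
    rw [eq_bot_iff]
    intro F hF
    have hF' : opM (W.map (ld (Sc G p))) F = 0 := hF
    rw [h2, opM_one] at hF'
    exact hF'
  rw [h3, vd_bot] at h1
  have h4 := eq_bot_of_vd_eq_zero _ (inv_ker (opM W) (opM_eqv W)) h1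
  have h5 : F ∈ LinearMap.ker (opM W : EE G (Fin (r 0)) →ₗ[ℂ] EE G (Fin (r 0))) := hF
  rw [h4] at h5
  exact h5

theorem closure_of_LW (hX : OrdInv G X) (h : PRes p m χ φ E) {i : ℕ} (hi : i < m)
    {W : Matrix (Fin (r (i + 1))) (Fin (r (i + 1))) (MonoidAlgebra ℂ G)}
    (hW : LW p m φ E (i + 1) W) (F : EE G (Fin (r (i + 1)))) (hF : opM W F = 0) :
    F ∈ (LinearMap.range (opM (E i) : EE G (Fin (r i)) →ₗ[ℂ] EE G (Fin (r (i + 1))))).topologicalClosure := by
  have hWE : W * E i = 0 := by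
    funext k
    exact hW.ker k
  have hAB : ∀ F, opM W (opM (E i) F) = 0 := by
    intro F
    rw [← opM_mul, hWE]
    rw [opM_eq_zero]
    intro k
    exact pr_zero_left F
  refine mem_closure_of_harm (opM_eqv W) (opM_eqv (E i)) ?_ hAB F hF
  rw [vd_harm_eq _ _ (opM_eqv (E i)) hAB]
  have h1 := pos_le' hX W hW.pos
  have h2 := pos_le' hX (E i) (h.pos i hi)
  have h3 := ker_add_range (opM ((E i).map (ld (Sc G p)))) (opM_eqv _)
  obtain ⟨S, hS⟩ := hW.fac
  have h4 : vd (LinearMap.ker (opM (W.map (ld (Sc G p))) :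
      EE G (Fin (r (i + 1))) →ₗ[ℂ] EE G (Fin (r (i + 1)))))
      ≤ vd (LinearMap.range (opM ((E i).map (ld (Sc G p))) :
        EE G (Fin (r i)) →ₗ[ℂ] EE G (Fin (r (i + 1))))) := by
    apply vd_mono
    intro F hF
    have hF' : opM (W.map (ld (Sc G p))) F = 0 := hF
    rw [hS, opM_sub, opM_one, opM_mul, sub_eq_zero] at hF'
    exact ⟨opM S F, hF'.symm⟩
  linarith

end cone

end Pool.Agent.H84.LS
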