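import Pool.Agent.H84.LS.Alg

/-!
# The leading parts of positive resolutions
-/

set_option autoImplicit false
set_option linter.unusedSectionVars false

open scoped Matrix

namespace Pool.Agent.H84.LS

open Pool.Agent.N309.LO Pool.Agent.N309.PD

universe u z

section gen
variable {G : Type u} [Group G]

/-- matrices of a complex of free modules -/
abbrev Mats (G : Type u) [Group G] (r : ℕ → ℕ) :=
  ∀ i, Matrix (Fin (r (i + 1))) (Fin (r i)) (MonoidAlgebra ℂ G)

/-- the cycles -/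
def KK {r : ℕ → ℕ} (φ : (Fin (r 0) → MonoidAlgebra ℂ G) →ₗ[ℂ] ℂ) (E : Mats G r) :
    ∀ i, (Fin (r i) → MonoidAlgebra ℂ G) → Prop
  | 0, x => φ x = 0
  | (i + 1), x => x ᵥ* E i = 0

variable {r : ℕ → ℕ} {φ : (Fin (r 0) → MonoidAlgebra ℂ G) →ₗ[ℂ] ℂ} {E : Mats G r}

theorem KK_zero (i : ℕ) : KK φ E i 0 := by
  cases i with
  | zero => exact map_zero φ
  | succ i => exact Matrix.zero_vecMul _

theorem KK_add (i : ℕ) {x y : Fin (r i) → MonoidAlgebra ℂ G} (hx : KK φ E i x) (hy : KK φ E i y) :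
    KK φ E i (x + y) := by
  cases i with
  | zero =>
    change φ (x + y) = 0
    rw [map_add, show φ x = 0 from hx, show φ y = 0 from hy, add_zero]
  | succ i =>
    change (x + y) ᵥ* E i = 0
    rw [Matrix.add_vecMul, show x ᵥ* E i = 0 from hx, show y ᵥ* E i = 0 from hy, add_zero]

theorem KK_neg (i : ℕ) {x : Fin (r i) → MonoidAlgebra ℂ G} (hx : KK φ E i x) :
    KK φ E i (-x) := by
  cases i with
  | zero =>
    change φ (-x) = 0
    rw [map_neg, show φ x = 0 from hx, neg_zero]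
  | succ i =>
    change (-x) ᵥ* E i = 0
    rw [Matrix.neg_vecMul, show x ᵥ* E i = 0 from hx, neg_zero]

theorem KK_sub (i : ℕ) {x y : Fin (r i) → MonoidAlgebra ℂ G} (hx : KK φ E i x) (hy : KK φ E i y) :
    KK φ E i (x - y) := by
  rw [sub_eq_add_neg]
  exact KK_add i hx (KK_neg i hy)

theorem phi_lsm {J : Type*} [Fintype J] [DecidableEq J] {φ : (J → MonoidAlgebra ℂ G) →ₗ[ℂ] ℂ}
    (χ : G →* ℂ) (hχ : ∀ (g : G) x, φ (gsm g x) = χ g * φ x) (α : MonoidAlgebra ℂ G)
    (x : J → MonoidAlgebra ℂ G) : φ (fun j => α * x j) = chi χ α * φ x := by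
  induction α using MonoidAlgebra.induction_linear with
  | zero =>
    have e : (fun j => (0 : MonoidAlgebra ℂ G) * x j) = 0 := by
      funext j
      exact zero_mul _
    rw [e, map_zero, map_zero, zero_mul]
  | add a b ha hb =>
    have e : (fun j => (a + b) * x j) = (fun j => a * x j) + fun j => b * x j := by
      funext j
      exact add_mul _ _ _
    rw [e, map_add, ha, hb, map_add, add_mul]
  | single g c =>
    have e : (fun j => MonoidAlgebra.single g c * x j) = c • gsm g x := by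
      funext j
      change _ = c • (MonoidAlgebra.single g 1 * x j)
      rw [← smul_mul_assoc, MonoidAlgebra.smul_single, smul_eq_mul, mul_one]
    rw [e, map_smul, hχ, chi_single, smul_eq_mul, mul_assoc]

theorem KK_lsm (χ : G →* ℂ) (hχ : ∀ (g : G) x, φ (gsm g x) = χ g * φ x) (i : ℕ)
    (α : MonoidAlgebra ℂ G) {x : Fin (r i) → MonoidAlgebra ℂ G} (hx : KK φ E i x) :
    KK φ E i (fun j => α * x j) := by
  cases i with
  | zero =>
    change φ _ = 0
    rw [phi_lsm χ hχ, show φ x = 0 from hx, mul_zero]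
  | succ i =>
    change (fun j => α * x j) ᵥ* E i = 0
    have h : x ᵥ* E i = 0 := hx
    funext k
    have h1 : ((fun j => α * x j) ᵥ* E i) k = α * (x ᵥ* E i) k := by
      change ∑ j, (α * x j) * E i j k = α * ∑ j, x j * E i j k
      rw [Finset.mul_sum]
      exact Finset.sum_congr rfl fun j _ => mul_assoc _ _ _
    rw [h1, h]
    exact mul_zero _

theorem KK_gsm (χ : G →* ℂ) (hχ : ∀ (g : G) x, φ (gsm g x) = χ g * φ x) (i : ℕ) (g : G)
    {x : Fin (r i) → MonoidAlgebra ℂ G} (hx : KK φ E i x) : KK φ E i (gsm g x) :=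
  KK_lsm χ hχ i _ hx

theorem KK_vecMul (χ : G →* ℂ) (hχ : ∀ (g : G) x, φ (gsm g x) = χ g * φ x) (i : ℕ)
    {L : Type*} [Fintype L] (y : L → MonoidAlgebra ℂ G)
    (A : Matrix L (Fin (r i)) (MonoidAlgebra ℂ G)) (hA : ∀ l, KK φ E i (A l)) :
    KK φ E i (y ᵥ* A) := by
  classical
  have e : y ᵥ* A = ∑ l, fun j => y l * A l j := by
    funext j
    rw [Finset.sum_apply]
    rfl
  rw [e]
  refine Finset.sum_induction _ (KK φ E i) (fun a b => KK_add i) (KK_zero i) ?_
  intro l _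
  exact KK_lsm χ hχ i _ (hA l)

/-- resolutions of the one-dimensional module of the character up to the degree `m` -/
structure GRes (m : ℕ) (χ : G →* ℂ) (φ : (Fin (r 0) → MonoidAlgebra ℂ G) →ₗ[ℂ] ℂ) (E : Mats G r) :
    Prop where
  ne : φ ≠ 0
  aug : ∀ (g : G) x, φ (gsm g x) = χ g * φ x
  ex : ∀ i < m, ∀ x, KK φ E i x ↔ ∃ y, y ᵥ* E i = x

theorem GRes.row {m : ℕ} {χ : G →* ℂ} (h : GRes m χ φ E) {i : ℕ} (hi : i < m) (k : Fin (r (i + 1))) :
    KK φ E i (E i k) := by
  rw [h.ex i hi]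
  exact ⟨Pi.single k 1, Matrix.single_one_vecMul _ _⟩

theorem GRes.comp {m : ℕ} {χ : G →* ℂ} (h : GRes m χ φ E) {i : ℕ} (hi : i + 1 < m) :
    E (i + 1) * E i = 0 := by
  funext k
  have h1 : E (i + 1) k ᵥ* E i = 0 := h.row hi k
  exact h1

/-- lifting matrices -/
theorem exists_mat {L : Type*} {i : ℕ} (h : ∀ x, KK φ E i x → ∃ y, y ᵥ* E i = x)
    (A : Matrix L (Fin (r i)) (MonoidAlgebra ℂ G)) (hA : ∀ l, KK φ E i (A l)) :
    ∃ B : Matrix L (Fin (r (i + 1))) (MonoidAlgebra ℂ G), B * E i = A := by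
  choose B hB using fun l => h _ (hA l)
  refine ⟨B, ?_⟩
  funext l
  exact hB l

end gen

section cone
variable {G : Type u} {X : Type z} [Group G] [MulAction G X] [LinearOrder X]
variable {r : ℕ → ℕ}

/-- positive resolutions -/
structure PRes (p : X) (m : ℕ) (χ : G →* ℂ) (φ : (Fin (r 0) → MonoidAlgebra ℂ G) →ₗ[ℂ] ℂ)
    (E : Mats G r) : Prop where
  ne : φ ≠ 0
  aug : ∀ (g : G) x, φ (gsm g x) = χ g * φ x
  pos : ∀ i < m, ∀ k, PV p (E i k)
  ex : ∀ i < m, ∀ x, PV p x → (KK φ E i x ↔ ∃ y, PV p y ∧ y ᵥ* E i = x)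

variable {φ : (Fin (r 0) → MonoidAlgebra ℂ G) →ₗ[ℂ] ℂ} {E : Mats G r} {p : X} {m : ℕ} {χ : G →* ℂ}

theorem PV_single {J : Type*} [DecidableEq J] (k : J) :
    PV p (Pi.single k 1 : J → MonoidAlgebra ℂ G) := by
  intro j
  by_cases h : j = k
  · subst h
    rw [Pi.single_eq_same, MonoidAlgebra.one_def]
    exact Sp_single (Sc_sub one_Sc) 1
  · rw [Pi.single_eq_of_ne h]
    exact Submodule.zero_mem _

theorem PRes.row (h : PRes p m χ φ E) {i : ℕ} (hi : i < m) (k : Fin (r (i + 1))) :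
    KK φ E i (E i k) := by
  rw [h.ex i hi _ (h.pos i hi k)]
  exact ⟨Pi.single k 1, PV_single k, Matrix.single_one_vecMul _ _⟩

theorem PRes.gres (hX : OrdInv G X) (h : PRes p m χ φ E) : GRes m χ φ E := by
  refine ⟨h.ne, h.aug, ?_⟩
  intro i hi x
  constructor
  · intro hx
    obtain ⟨b, hb⟩ := exists_translate' hX p x
    obtain ⟨y, _, hy⟩ := (h.ex i hi _ hb).1 (KK_gsm χ h.aug i b hx)
    refine ⟨gsm b⁻¹ y, ?_⟩
    rw [← gsm_vecMul, hy, gsm_inv_gsm]
  · rintro ⟨y, rfl⟩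
    exact KK_vecMul χ h.aug i y (E i) (h.row hi)

theorem map_ld_mul (hX : OrdInv G X) {K L J : Type*} [Fintype L] {A : Matrix K L (MonoidAlgebra ℂ G)}
    {B : Matrix L J (MonoidAlgebra ℂ G)} (hA : ∀ k, PV p (A k)) (hB : ∀ l, PV p (B l)) :
    (A * B).map (ld (Sc G p)) = A.map (ld (Sc G p)) * B.map (ld (Sc G p)) := by
  funext k j
  change ld (Sc G p) (∑ l, A k l * B l j) = ∑ l, ld (Sc G p) (A k l) * ld (Sc G p) (B l j)
  rw [map_sum]
  exact Finset.sum_congr rfl fun l _ => ld_mul hX (hA k l) (hB l j)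

/-- factorisation of the leading part -/
def Fac (p : X) (E : Mats G r) : ∀ i, Matrix (Fin (r i)) (Fin (r i)) (MonoidAlgebra ℂ G) → Prop
  | 0, W => W.map (ld (Sc G p)) = 1
  | (i + 1), W => ∃ S : Matrix (Fin (r i)) (Fin (r (i + 1))) (MonoidAlgebra ℂ G),
      W.map (ld (Sc G p)) = 1 - (E i).map (ld (Sc G p)) * S

/-- the cycles with given leading part -/
structure LW (p : X) (m : ℕ) (φ : (Fin (r 0) → MonoidAlgebra ℂ G) →ₗ[ℂ] ℂ) (E : Mats G r) (i : ℕ)
    (W : Matrix (Fin (r i)) (Fin (r i)) (MonoidAlgebra ℂ G)) : Prop where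
  pos : ∀ k, PV p (W k)
  ker : ∀ k, KK φ E i (W k)
  mul : i < m → (E i).map (ld (Sc G p)) * W.map (ld (Sc G p)) = (E i).map (ld (Sc G p))
  fac : Fac p E i W

theorem exists_LW (hX : OrdInv G X) (h : PRes p m χ φ E) (a : G) (ha : a ∈ Tc G p) :
    ∀ i ≤ m, ∃ W, LW p m φ E i W := by
  classical
  intro i
  induction i with
  | zero =>
    intro _
    set W : Matrix (Fin (r 0)) (Fin (r 0)) (MonoidAlgebra ℂ G) :=
      fun k => Pi.single k 1 - (χ a)⁻¹ • gsm a (Pi.single k 1) with hW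
    have hga : ∀ k : Fin (r 0), ∀ j, gsm a (Pi.single k 1 : Fin (r 0) → MonoidAlgebra ℂ G) j
        ∈ Sp (Tc G p) := by
      intro k j
      exact Sp_mul (TP hX) (Sp_single ha 1) (PV_single (p := p) k j)
    have hld : W.map (ld (Sc G p)) = 1 := by
      funext k j
      change ld (Sc G p) ((Pi.single k 1 : Fin (r 0) → MonoidAlgebra ℂ G) j
        - (χ a)⁻¹ • gsm a (Pi.single k 1) j) = _
      rw [map_sub, map_smul, ld_of_disj T_not_S (hga k j), smul_zero, sub_zero, Matrix.one_apply]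
      by_cases hjk : j = k
      · subst hjk
        rw [Pi.single_eq_same, if_pos rfl, ld_one]
      · rw [Pi.single_eq_of_ne hjk, if_neg (Ne.symm hjk), map_zero]
    refine ⟨W, ⟨?_, ?_, ?_, hld⟩⟩
    · intro k j
      exact Submodule.sub_mem _ (PV_single k j)
        (Submodule.smul_mem _ _ (Sp_mono Tc_sub (hga k j)))
    · intro k
      change φ (Pi.single k 1 - (χ a)⁻¹ • gsm a (Pi.single k 1)) = 0
      rw [map_sub, map_smul, h.aug, smul_eq_mul, inv_mul_cancel_left₀ (chi_ne χ a), sub_self]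
    · intro _
      rw [hld, Matrix.mul_one]
  | succ i ih =>
    intro hi
    have hi' : i < m := hi
    obtain ⟨W, hW⟩ := ih hi'.le
    have hg := h.gres hX
    -- lifting
    have hZ : ∀ k, ∃ y, PV p y ∧ y ᵥ* E i = W k := fun k => (h.ex i hi' _ (hW.pos k)).1 (hW.ker k)
    choose Z hZp hZe using hZ
    have hZE : (Matrix.of Z) * E i = W := by
      funext k
      exact hZe k
    set Z' : Matrix (Fin (r i)) (Fin (r (i + 1))) (MonoidAlgebra ℂ G) := Matrix.of Z with hZ'
    have hZp' : ∀ k, PV p (Z' k) := hZp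
    set V : Matrix (Fin (r (i + 1))) (Fin (r (i + 1))) (MonoidAlgebra ℂ G) :=
      1 - (E i).map (ld (Sc G p)) * Z'.map (ld (Sc G p)) with hV
    have hVE : V * (E i).map (ld (Sc G p)) = 0 := by
      rw [hV, Matrix.sub_mul, Matrix.one_mul, Matrix.mul_assoc, ← map_ld_mul hX hZp' (h.pos i hi'),
        hZE, hW.mul hi', sub_self]
    have hVS : ∀ k j, V k j ∈ Sp (Sc G p) := by
      intro k j
      rw [hV]
      refine Submodule.sub_mem _ ?_ ?_
      · rw [Matrix.one_apply]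
        split_ifs
        · rw [MonoidAlgebra.one_def]; exact Sp_single one_Sc 1
        · exact Submodule.zero_mem _
      · exact Submodule.sum_mem _ fun l _ => Sp_mul SS (ld_mem _ _) (ld_mem _ _)
    have hVP : ∀ k, PV p (V k) := fun k j => Sp_mono Sc_sub (hVS k j)
    have hVld : V.map (ld (Sc G p)) = V := by
      funext k j
      exact ld_of_mem (hVS k j)
    -- correction of the rows
    have hrow : ∀ k, ∃ y : Fin (r (i + 1)) → MonoidAlgebra ℂ G, PV p y ∧ y ᵥ* E i = 0 ∧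
        ∀ j, ld (Sc G p) (y j) = V k j := by
      intro k
      set x := V k ᵥ* E i with hx
      have hxP : PV p x := PV_vecMul hX (hVP k) (h.pos i hi')
      have hxld : ∀ j, ld (Sc G p) (x j) = 0 := by
        intro j
        have h1 := map_ld_mul hX hVP (h.pos i hi')
        rw [hVld, hVE] at h1
        exact congrFun (congrFun h1 k) j
      have hxK : KK φ E i x := (hg.ex i hi' x).2 ⟨V k, rfl⟩
      by_cases hx0 : x = 0
      · exact ⟨V k, hVP k, hx0, fun j => ld_of_mem (hVS k j)⟩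
      · obtain ⟨b, ⟨j0, hj0⟩, hb⟩ := exists_translate hX p x hx0
        have hbT : b ∈ Tc G p := by
          have h1 := sub_ld_mem (hxP j0)
          rw [hxld, sub_zero] at h1
          exact h1 b hj0
        obtain ⟨y, hyP, hyE⟩ := (h.ex i hi' _ hb).1 (KK_gsm χ h.aug i b⁻¹ hxK)
        have hby : ∀ j, gsm b y j ∈ Sp (Tc G p) := fun j => Sp_mul (TP hX) (Sp_single hbT 1) (hyP j)
        refine ⟨V k - gsm b y, ?_, ?_, ?_⟩
        · intro j
          exact Submodule.sub_mem _ (hVP k j) (Sp_mono Tc_sub (hby j))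
        · rw [Matrix.sub_vecMul, ← gsm_vecMul, hyE, gsm_gsm_inv, hx, sub_self]
        · intro j
          change ld (Sc G p) (V k j - gsm b y j) = _
          rw [map_sub, ld_of_mem (hVS k j), ld_of_disj T_not_S (hby j), sub_zero]
    choose W' hW'P hW'E hW'ld using hrow
    have hld : (Matrix.of W').map (ld (Sc G p)) = V := by
      funext k j
      exact hW'ld k j
    refine ⟨Matrix.of W', ⟨hW'P, hW'E, ?_, ⟨Z'.map (ld (Sc G p)), hld⟩⟩⟩
    intro hi2
    have hc := hg.comp hi2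
    rw [hld, hV, Matrix.mul_sub, Matrix.mul_one, ← Matrix.mul_assoc,
      ← map_ld_mul hX (h.pos (i + 1) hi2) (h.pos i hi'), hc]
    have h0 : (0 : Matrix (Fin (r (i + 1 + 1))) (Fin (r i)) (MonoidAlgebra ℂ G)).map (ld (Sc G p)) = 0 := by
      funext k j
      exact map_zero (ld (Sc G p))
    rw [h0, Matrix.zero_mul, sub_zero]

end cone

end Pool.Agent.H84.LS
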