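import Pool.Agent.H84.LS.Chain

/-!
# Twisting by characters
-/

set_option autoImplicit false
set_option linter.unusedSectionVars false

open scoped Matrix

namespace Pool.Agent.H84.LS

open Pool.Agent.N309.LO Pool.Agent.N309.PD Pool.Agent.W649.ZL

universe u z

section gen
variable {G : Type u} [Group G]

/-- the inverse character -/
def cinv (χ : G →* ℂ) : G →* ℂ where
  toFun g := χ g⁻¹
  map_one' := by rw [inv_one, map_one]
  map_mul' a b := by rw [mul_inv_rev, map_mul, mul_comm]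

theorem cinv_mul (χ : G →* ℂ) (g : G) : cinv χ g * χ g = 1 := chi_inv χ g

/-- the homomorphism `g ↦ χ g * g` -/
noncomputable def twHom (χ : G →* ℂ) : G →* MonoidAlgebra ℂ G where
  toFun g := MonoidAlgebra.single g (χ g)
  map_one' := by rw [map_one, MonoidAlgebra.one_def]
  map_mul' a b := by rw [MonoidAlgebra.single_mul_single, map_mul]

/-- the twist -/
noncomputable def tw (χ : G →* ℂ) : MonoidAlgebra ℂ G →ₐ[ℂ] MonoidAlgebra ℂ G :=
  MonoidAlgebra.lift ℂ _ G (twHom χ)

theorem tw_single (χ : G →* ℂ) (g : G) (c : ℂ) :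
    tw χ (MonoidAlgebra.single g c) = MonoidAlgebra.single g (c * χ g) := by
  unfold tw
  rw [MonoidAlgebra.lift_single]
  change c • MonoidAlgebra.single g (χ g) = _
  rw [MonoidAlgebra.smul_single, smul_eq_mul]

theorem tw_coeff (χ : G →* ℂ) (α : MonoidAlgebra ℂ G) (g : G) :
    (tw χ α).coeff g = α.coeff g * χ g := by
  classical
  induction α using MonoidAlgebra.induction_linear with
  | zero =>
    rw [map_zero]
    change (0 : ℂ) = 0 * χ g
    rw [zero_mul]
  | add a b ha hb =>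
    rw [map_add, MonoidAlgebra.coeff_add, Finsupp.add_apply, ha, hb, MonoidAlgebra.coeff_add,
      Finsupp.add_apply, add_mul]
  | single k c =>
    rw [tw_single, MonoidAlgebra.coeff_single, MonoidAlgebra.coeff_single, Finsupp.single_apply,
      Finsupp.single_apply]
    by_cases h : k = g
    · rw [if_pos h, if_pos h, h]
    · rw [if_neg h, if_neg h, zero_mul]

theorem tw_tw (χ : G →* ℂ) (α : MonoidAlgebra ℂ G) : tw χ (tw (cinv χ) α) = α := by
  apply MonoidAlgebra.coeff_injective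
  ext g
  rw [tw_coeff, tw_coeff, mul_assoc, cinv_mul, mul_one]

theorem tw_tw' (χ : G →* ℂ) (α : MonoidAlgebra ℂ G) : tw (cinv χ) (tw χ α) = α := by
  apply MonoidAlgebra.coeff_injective
  ext g
  rw [tw_coeff, tw_coeff, mul_assoc, mul_comm (χ g), cinv_mul, mul_one]

/-- the twist of vectors -/
noncomputable def twv (χ : G →* ℂ) {J : Type*} (x : J → MonoidAlgebra ℂ G) : J → MonoidAlgebra ℂ G :=
  fun j => tw χ (x j)

theorem twv_twv (χ : G →* ℂ) {J : Type*} (x : J → MonoidAlgebra ℂ G) :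
    twv χ (twv (cinv χ) x) = x := by
  funext j
  exact tw_tw χ _

theorem twv_twv' (χ : G →* ℂ) {J : Type*} (x : J → MonoidAlgebra ℂ G) :
    twv (cinv χ) (twv χ x) = x := by
  funext j
  exact tw_tw' χ _

theorem twv_vecMul (χ : G →* ℂ) {J L : Type*} [Fintype L] (x : L → MonoidAlgebra ℂ G)
    (A : Matrix L J (MonoidAlgebra ℂ G)) : twv χ (x ᵥ* A) = twv χ x ᵥ* A.map (tw χ) := by
  funext j
  change tw χ (∑ l, x l * A l j) = ∑ l, tw χ (x l) * tw χ (A l j)
  rw [map_sum]
  exact Finset.sum_congr rfl fun l _ => map_mul _ _ _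

theorem twv_zero (χ : G →* ℂ) {J : Type*} : twv χ (0 : J → MonoidAlgebra ℂ G) = 0 := by
  funext j
  exact map_zero _

theorem map_map_tw (χ : G →* ℂ) {J L : Type*} (A : Matrix L J (MonoidAlgebra ℂ G)) :
    (A.map (tw (cinv χ))).map (tw χ) = A := by
  funext l j
  exact tw_tw χ _

/-- the twisted functional -/
noncomputable def twF (χ : G →* ℂ) {J : Type*} (ψ : (J → MonoidAlgebra ℂ G) →ₗ[ℂ] ℂ) :
    (J → MonoidAlgebra ℂ G) →ₗ[ℂ] ℂ where
  toFun x := ψ (twv χ x)
  map_add' x y := by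
    rw [← map_add]
    congr 1
    funext j
    exact map_add _ _ _
  map_smul' c x := by
    rw [RingHom.id_apply, ← map_smul]
    congr 1
    funext j
    exact map_smul (tw χ) c (x j)

end gen

section cone
variable {G : Type u} {X : Type z} [Group G] [MulAction G X] [LinearOrder X] {p : X}
  {r : ℕ → ℕ} {ψ : (Fin (r 0) → MonoidAlgebra ℂ G) →ₗ[ℂ] ℂ} {E : Mats G r} {m : ℕ}

theorem PV_tw (χ : G →* ℂ) {J : Type*} {x : J → MonoidAlgebra ℂ G} (h : PV p x) :
    PV p (twv χ x) := by
  intro j g hg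
  change (tw χ (x j)).coeff g ≠ 0 at hg
  rw [tw_coeff] at hg
  exact h j g (left_ne_zero_of_mul hg)

theorem KK_tw (χ : G →* ℂ) (i : ℕ) (x : Fin (r i) → MonoidAlgebra ℂ G) :
    KK (twF χ ψ) (fun i => (E i).map (tw (cinv χ))) i x ↔ KK ψ E i (twv χ x) := by
  cases i with
  | zero => exact Iff.rfl
  | succ i =>
    change x ᵥ* (E i).map (tw (cinv χ)) = 0 ↔ twv χ x ᵥ* E i = 0
    constructor
    · intro h
      have h1 := congrArg (twv χ) h
      rwa [twv_vecMul, map_map_tw, twv_zero] at h1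
    · intro h
      have h1 := congrArg (twv (cinv χ)) h
      rwa [twv_vecMul, twv_twv', twv_zero] at h1

theorem PRes.twist (h : PRes p m 1 ψ E) (χ : G →* ℂ) :
    PRes p m χ (twF χ ψ) (fun i => (E i).map (tw (cinv χ))) := by
  refine ⟨?_, ?_, ?_, ?_⟩
  · intro h0
    apply h.ne
    apply LinearMap.ext
    intro x
    have h1 : twF χ ψ (twv (cinv χ) x) = 0 := by rw [h0]; rfl
    change ψ (twv χ (twv (cinv χ) x)) = 0 at h1
    rw [twv_twv] at h1
    exact h1
  · intro g x
    change ψ (twv χ (gsm g x)) = χ g * ψ (twv χ x)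
    have e : twv χ (gsm g x) = χ g • gsm g (twv χ x) := by
      funext j
      change tw χ (MonoidAlgebra.single g 1 * x j) = χ g • (MonoidAlgebra.single g 1 * tw χ (x j))
      rw [map_mul, tw_single, one_mul, ← smul_mul_assoc, MonoidAlgebra.smul_single, smul_eq_mul,
        mul_one]
    rw [e, map_smul, h.aug, smul_eq_mul]
    change χ g * (1 * _) = _
    rw [one_mul]
  · intro i hi k
    exact PV_tw (cinv χ) (h.pos i hi k)
  · intro i hi x hx
    rw [KK_tw, h.ex i hi _ (PV_tw χ hx)]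
    constructor
    · rintro ⟨y, hy, hyx⟩
      refine ⟨twv (cinv χ) y, PV_tw _ hy, ?_⟩
      rw [← twv_vecMul, hyx, twv_twv']
    · rintro ⟨y, hy, hyx⟩
      refine ⟨twv χ y, PV_tw _ hy, ?_⟩
      rw [← hyx, twv_vecMul, map_map_tw]

end cone

end Pool.Agent.H84.LS
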